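import Pool.Agent.Helper64.FL.StG

set_option autoImplicit false

/-! Full list for MP_866009_co: ST_CA2. -/

namespace Pool.Agent.Helper64.FL

open Pool.Agent.Helper64.CT Pool.Agent.Helper64.DT
open Pool.Agent.Helper64.HG (Ovl Model Circ IC HellyCircle ChordModel)

/-- different and nonadjacent -/
def ca2_cl {V : Type} (G : SimpleGraph V) (w : V) (l : List V) : Prop :=
  ∀ x ∈ l, w ≠ x ∧ ¬ G.Adj w x

theorem ca2_sy {V : Type} {G : SimpleGraph V} {x y : V} (h : x ≠ y ∧ ¬ G.Adj x y) :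
    y ≠ x ∧ ¬ G.Adj y x := ⟨h.1.symm, fun h' => h.2 h'.symm⟩

theorem ca2_pth {V : Type} {G : SimpleGraph V} {a w : V} {l : List V} (h : Pth G a l w) :
    (a = w → l = []) ∧ (a ≠ w → IPt G (a :: (l ++ [w]))) := by
  rcases h with h | h
  · exact ⟨fun _ => h.2, fun h' => absurd h.1 h'⟩
  · exact ⟨fun h' => absurd h' h.1, fun _ => h.2⟩

/-- the data on one side -/
structure Ca2S {V : Type} (G : SimpleGraph V) (a : V) (la : List V) (a' q q' : V) (l1 : List V)
    (f : V) (l2 : List V) : Prop where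
  s1 : ∀ u ∈ l1, u ∈ la
  s2 : ∀ u ∈ l2, u ∈ la
  fA : f = a ∨ f ∈ la ∨ f = a'
  fq : G.Adj f q
  p1 : Pth G a l1 f
  p2 : Pth G f l2 a'
  aq : a ≠ f → ¬ G.Adj a q
  aa : a ≠ f → f ≠ a' → a ≠ a' ∧ ¬ G.Adj a a'
  ac1 : a ≠ f → a ≠ a'
  ac2 : f ≠ a' → a ≠ a'
  F1 : ∀ x ∈ l1, a ≠ x ∧ f ≠ x ∧ a' ≠ x ∧ (a' ≠ f → ¬ G.Adj a' x) ∧ ¬ G.Adj q x ∧ ¬ G.Adj q' x
  F2 : ∀ x ∈ l2, f ≠ x ∧ a' ≠ x ∧ a ≠ x ∧ (a ≠ f → ¬ G.Adj a x)
  F3 : ∀ u ∈ l1, ∀ v ∈ l2, u ≠ v ∧ ¬ G.Adj u v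

theorem ca2_side {V : Type} (G : SimpleGraph V) (hP : ST_PTB) (hC : ST_CUT) {a a' q q' : V}
    {la : List V} (hp : Pth G a la a') (hq : ∃ u, (u = a ∨ u ∈ la ∨ u = a') ∧ G.Adj u q)
    (hqq : q ≠ q' → ∀ u, (u = a ∨ u ∈ la ∨ u = a') → ¬ G.Adj q' u) :
    ∃ l1 f l2, Ca2S G a la a' q q' l1 f l2 := by
  obtain ⟨_, hnd, _, _, _, _⟩ := hP V G
  have h1 : PtK G Set.univ a la a' := ⟨trivial, trivial, fun _ _ => trivial, hp⟩
  have h2 : G.Adj a q ∨ G.Adj a' q ∨ ∃ u ∈ la, G.Adj u q := by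
    obtain ⟨u, hu, huq⟩ := hq
    rcases hu with rfl | hu | rfl
    · exact Or.inl huq
    · exact Or.inr (Or.inr ⟨u, hu, huq⟩)
    · exact Or.inr (Or.inl huq)
  obtain ⟨l1, f, l2, hO, hl1, hl2, hf, _⟩ := hC V G Set.univ (fun u => G.Adj u q) a a' la h1 h2
  have hf' : f = a ∨ f ∈ la ∨ f = a' := by
    rcases hf with h | h | h
    · exact Or.inl h
    · exact Or.inr (Or.inr h)
    · exact Or.inr (Or.inl h)
  obtain ⟨al1, fl1, _⟩ := hnd _ _ _ hO.p1
  obtain ⟨fl2, al2, _⟩ := hnd _ _ _ hO.p2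
  refine ⟨l1, f, l2, hl1, hl2, hf', hO.ff, hO.p1, hO.p2, hO.ft, hO.aw, ?_, ?_, ?_, ?_, hO.l12⟩
  · intro h
    by_cases h' : f = a'
    · rw [← h']; exact h
    · exact (hO.aw h h').1
  · intro h
    by_cases h' : a = f
    · rw [h']; exact h
    · exact (hO.aw h' h).1
  · intro x hx
    have hxq : ¬ G.Adj q x := fun h => hO.fl x hx h.symm
    refine ⟨fun h => al1 (h ▸ hx), fun h => fl1 (h ▸ hx), ?_, ?_, hxq, ?_⟩
    · intro h
      by_cases h' : f = a'
      · rw [← h'] at h; exact fl1 (h ▸ hx)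
      · exact (hO.l1w h' x hx).1 h.symm
    · intro h h'
      exact (hO.l1w (Ne.symm h) x hx).2 h'.symm
    · by_cases h : q = q'
      · rw [← h]; exact hxq
      · exact hqq h x (Or.inr (Or.inl (hl1 x hx)))
  · intro x hx
    refine ⟨fun h => fl2 (h ▸ hx), fun h => al2 (h ▸ hx), ?_, ?_⟩
    · intro h
      by_cases h' : a = f
      · rw [h'] at h; exact fl2 (h ▸ hx)
      · exact (hO.al2 h' x hx).1 h
    · intro h
      exact (hO.al2 h x hx).2

theorem st_CA2 (hB : ST_CIB) (_hN : ST_CNB) (hP : ST_PTB) (hS : ST_SP3) (hCU : ST_CUT) :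
    ST_CA2 := by
  intro V G hNo v a b c hC g h la a' lb b' hT hcase
  obtain ⟨_, _, nab, nac, nbc, dab, dac, dbc, _, _, _⟩ := (hB V G).2.1 _ _ _ _ _ hC
  obtain ⟨_, hnd, _, _, _, _⟩ := hP V G
  -- the shortest connection
  have hcon : Cn G (Far G c) a b := by
    have h1 := hC.ab
    rw [Set.univ_inter] at h1
    exact h1
  have hA0 : ∀ u, (u = a ∨ u ∈ la ∨ u = a') → u ∈ Far G c := fun u hu =>
    ⟨(hT.ca u hu).1, (hT.ca u hu).2.1⟩
  have hB0 : ∀ u, (u = b ∨ u ∈ lb ∨ u = b') → u ∈ Far G c := fun u hu =>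
    ⟨(hT.cb u hu).1, (hT.cb u hu).2.1⟩
  obtain ⟨q, M, q', hpM, hin, ⟨ua, huaA, _, huaq⟩, ⟨ub, hubB, _, hubq⟩, hM, hqq⟩ :=
    hS V G (Far G c) {u | u = a ∨ u ∈ la ∨ u = a'} {u | u = b ∨ u ∈ lb ∨ u = b'} a b hcon
      (Or.inl rfl) (Or.inl rfl) (fun u hu w hw => hT.ab u hu w hw)
  obtain ⟨l1, aj, l2, SA⟩ := ca2_side G hP hCU (q' := q') hT.pa ⟨ua, huaA, huaq⟩
    (fun hne u hu => (hqq hne u (hA0 u hu)).2 hu)
  obtain ⟨m1, bj, m2, SB⟩ := ca2_side G hP hCU (q := q') (q' := q) hT.pb ⟨ub, hubB, hubq⟩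
    (fun hne u hu => (hqq (Ne.symm hne) u (hB0 u hu)).1 hu)
  -- the vertices q, M, q' are far from c
  have hQ : ∀ u, (u = q ∨ u ∈ M ∨ u = q') → (c ≠ u ∧ ¬ G.Adj c u) ∧ g ≠ u ∧ h ≠ u ∧ v ≠ u := by
    intro u hu
    obtain ⟨h1, h2⟩ := (hin u hu).1
    refine ⟨⟨h1.symm, h2⟩, ?_, ?_, ?_⟩
    · rintro rfl; exact h2 hT.cg
    · rintro rfl; exact h2 hT.ch
    · rintro rfl; exact h2 hC.vc.symm
  have hQA : ∀ u, (u = q ∨ u ∈ M ∨ u = q') → ∀ w, (w = a ∨ w ∈ la ∨ w = a') → w ≠ u := by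
    intro u hu w hw hwu
    exact (hin u hu).2.1 (hwu ▸ hw)
  have hQB : ∀ u, (u = q ∨ u ∈ M ∨ u = q') → ∀ w, (w = b ∨ w ∈ lb ∨ w = b') → w ≠ u := by
    intro u hu w hw hwu
    exact (hin u hu).2.2 (hwu ▸ hw)
  have hMA : ∀ w, (w = a ∨ w ∈ la ∨ w = a') → ca2_cl G w M := by
    intro w hw x hx
    exact ⟨hQA x (Or.inr (Or.inl hx)) w hw, fun h' => hM x hx w (hA0 w hw) (Or.inl hw) h'.symm⟩
  have hMB : ∀ w, (w = b ∨ w ∈ lb ∨ w = b') → ca2_cl G w M := by
    intro w hw x hx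
    exact ⟨hQB x (Or.inr (Or.inl hx)) w hw, fun h' => hM x hx w (hB0 w hw) (Or.inr hw) h'.symm⟩
  obtain ⟨qM, q'M, _⟩ := hnd _ _ _ hpM
  have memA : ∀ {u : V}, u ∈ la → (u = a ∨ u ∈ la ∨ u = a') := fun hu => Or.inr (Or.inl hu)
  have memB : ∀ {u : V}, u ∈ lb → (u = b ∨ u ∈ lb ∨ u = b') := fun hu => Or.inr (Or.inl hu)
  have aA : a = a ∨ a ∈ la ∨ a = a' := Or.inl rfl
  have a'A : a' = a ∨ a' ∈ la ∨ a' = a' := Or.inr (Or.inr rfl)
  have bB : b = b ∨ b ∈ lb ∨ b = b' := Or.inl rfl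
  have b'B : b' = b ∨ b' ∈ lb ∨ b' = b' := Or.inr (Or.inr rfl)
  have qQ : q = q ∨ q ∈ M ∨ q = q' := Or.inl rfl
  have q'Q : q' = q ∨ q' ∈ M ∨ q' = q' := Or.inr (Or.inr rfl)
  have ajA := SA.fA
  have bjB := SB.fA
  -- cleanness of vertices of one side to the interiors on the other side
  have cAB : ∀ w, (w = a ∨ w ∈ la ∨ w = a') → ca2_cl G w m1 ∧ ca2_cl G w m2 := by
    intro w hw
    exact ⟨fun x hx => hT.ab w hw x (memB (SB.s1 x hx)),
      fun x hx => hT.ab w hw x (memB (SB.s2 x hx))⟩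
  have cBA : ∀ w, (w = b ∨ w ∈ lb ∨ w = b') → ca2_cl G w l1 ∧ ca2_cl G w l2 := by
    intro w hw
    exact ⟨fun x hx => ca2_sy (hT.ab x (memA (SA.s1 x hx)) w hw),
      fun x hx => ca2_sy (hT.ab x (memA (SA.s2 x hx)) w hw)⟩
  have cc : ca2_cl G c l1 ∧ ca2_cl G c l2 ∧ ca2_cl G c m1 ∧ ca2_cl G c m2 ∧ ca2_cl G c M := by
    refine ⟨fun x hx => ?_, fun x hx => ?_, fun x hx => ?_, fun x hx => ?_, fun x hx => ?_⟩
    · have := hT.ca x (memA (SA.s1 x hx)); exact ⟨this.1.symm, this.2.1⟩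
    · have := hT.ca x (memA (SA.s2 x hx)); exact ⟨this.1.symm, this.2.1⟩
    · have := hT.cb x (memB (SB.s1 x hx)); exact ⟨this.1.symm, this.2.1⟩
    · have := hT.cb x (memB (SB.s2 x hx)); exact ⟨this.1.symm, this.2.1⟩
    · exact (hQ x (Or.inr (Or.inl hx))).1
  -- conditional facts
  have cA : ∀ w, (w = a ∨ w ∈ la ∨ w = a') → w ≠ a' → w ≠ g ∧ ¬ G.Adj w g := by
    intro w hw hne
    refine ⟨(hT.ca w hw).2.2.1, ?_⟩
    rcases hw with rfl | hw | rfl
    · exact hT.ga.1 hne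
    · exact hT.ga.2 w hw
    · exact absurd rfl hne
  have cB : ∀ w, (w = b ∨ w ∈ lb ∨ w = b') → w ≠ b' → w ≠ h ∧ ¬ G.Adj w h := by
    intro w hw hne
    refine ⟨(hT.cb w hw).2.2.2.1, ?_⟩
    rcases hw with rfl | hw | rfl
    · exact hT.hb.1 hne
    · exact hT.hb.2 w hw
    · exact absurd rfl hne
  have cq : q ≠ q' → ∀ w, (w = b ∨ w ∈ lb ∨ w = b') → q ≠ w ∧ ¬ G.Adj q w := fun hne w hw =>
    ⟨(hQB q qQ w hw).symm, (hqq hne w (hB0 w hw)).1 hw⟩
  have cq' : q ≠ q' → ∀ w, (w = a ∨ w ∈ la ∨ w = a') → q' ≠ w ∧ ¬ G.Adj q' w := fun hne w hw =>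
    ⟨(hQA q' q'Q w hw).symm, (hqq hne w (hA0 w hw)).2 hw⟩
  have c1 : a ≠ aj → a ≠ q ∧ ¬ G.Adj a q := fun hne => ⟨hQA q qQ a aA, SA.aq hne⟩
  have c2 : b ≠ bj → b ≠ q' ∧ ¬ G.Adj b q' := fun hne => ⟨hQB q' q'Q b bB, SB.aq hne⟩
  have tM := ca2_pth hpM
  have t1 := ca2_pth SA.p1
  have t2 := ca2_pth SA.p2
  have t3 := ca2_pth SB.p1
  have t4 := ca2_pth SB.p2
  have dA := fun w hw => ca2_sy (x := w) (y := c)
    ⟨(hT.ca w hw).1, fun h' => (hT.ca w hw).2.1 h'.symm⟩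
  have dB := fun w hw => ca2_sy (x := w) (y := c)
    ⟨(hT.cb w hw).1, fun h' => (hT.cb w hw).2.1 h'.symm⟩
  -- not in the interiors
  have nM : ∀ x ∈ M, v ≠ x ∧ g ≠ x ∧ h ≠ x ∧ q ≠ x ∧ q' ≠ x := fun x hx =>
    have h1 := hQ x (Or.inr (Or.inl hx))
    ⟨h1.2.2.2, h1.2.1, h1.2.2.1, fun h' => qM (h' ▸ hx), fun h' => q'M (h' ▸ hx)⟩
  have nA : ∀ x, x ∈ la → v ≠ x ∧ g ≠ x ∧ h ≠ x ∧ q ≠ x ∧ q' ≠ x := fun x hx =>
    have h1 := hT.ca x (memA hx)
    ⟨h1.2.2.2.2.symm, h1.2.2.1.symm, h1.2.2.2.1.symm, (hQA q qQ x (memA hx)).symm,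
      (hQA q' q'Q x (memA hx)).symm⟩
  have nB : ∀ x, x ∈ lb → v ≠ x ∧ g ≠ x ∧ h ≠ x ∧ q ≠ x ∧ q' ≠ x := fun x hx =>
    have h1 := hT.cb x (memB hx)
    ⟨h1.2.2.2.2.symm, h1.2.2.1.symm, h1.2.2.2.1.symm, (hQB q qQ x (memB hx)).symm,
      (hQB q' q'Q x (memB hx)).symm⟩
  have hsep : [M, l1, l2, m1, m2].Pairwise (fun A B => ∀ x ∈ A, ∀ y ∈ B, x ≠ y ∧ ¬ G.Adj x y) := by
    simp only [List.pairwise_cons, List.mem_cons, List.not_mem_nil, or_false,
      forall_eq_or_imp, forall_eq, IsEmpty.forall_iff, implies_true, List.Pairwise.nil,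
      and_true]
    refine ⟨⟨?_, ?_, ?_, ?_⟩, ⟨SA.F3, ?_, ?_⟩, ⟨?_, ?_⟩, SB.F3⟩
    · intro x hx y hy; exact ca2_sy (hMA y (memA (SA.s1 y hy)) x hx)
    · intro x hx y hy; exact ca2_sy (hMA y (memA (SA.s2 y hy)) x hx)
    · intro x hx y hy; exact ca2_sy (hMB y (memB (SB.s1 y hy)) x hx)
    · intro x hx y hy; exact ca2_sy (hMB y (memB (SB.s2 y hy)) x hx)
    · intro x hx y hy; exact (cAB x (memA (SA.s1 x hx))).1 y hy
    · intro x hx y hy; exact (cAB x (memA (SA.s1 x hx))).2 y hy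
    · intro x hx y hy; exact (cAB x (memA (SA.s2 x hx))).1 y hy
    · intro x hx y hy; exact (cAB x (memA (SA.s2 x hx))).2 y hy
  rcases hcase with ⟨hgh, hAh, hBg⟩ | ⟨hgh, hag, hbg⟩
  · -- g and h different
    have gl1 : ca2_cl G g l1 := fun x hx =>
      ⟨(nA x (SA.s1 x hx)).2.1, fun h' => hT.ga.2 x (SA.s1 x hx) h'.symm⟩
    have gl2 : ca2_cl G g l2 := fun x hx =>
      ⟨(nA x (SA.s2 x hx)).2.1, fun h' => hT.ga.2 x (SA.s2 x hx) h'.symm⟩
    have hl1 : ca2_cl G h l1 := fun x hx =>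
      ⟨(nA x (SA.s1 x hx)).2.2.1, fun h' => hAh x (memA (SA.s1 x hx)) h'.symm⟩
    have hl2 : ca2_cl G h l2 := fun x hx =>
      ⟨(nA x (SA.s2 x hx)).2.2.1, fun h' => hAh x (memA (SA.s2 x hx)) h'.symm⟩
    have gm1 : ca2_cl G g m1 := fun x hx =>
      ⟨(nB x (SB.s1 x hx)).2.1, fun h' => hBg x (memB (SB.s1 x hx)) h'.symm⟩
    have gm2 : ca2_cl G g m2 := fun x hx =>
      ⟨(nB x (SB.s2 x hx)).2.1, fun h' => hBg x (memB (SB.s2 x hx)) h'.symm⟩
    have hm1 : ca2_cl G h m1 := fun x hx =>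
      ⟨(nB x (SB.s1 x hx)).2.2.1, fun h' => hT.hb.2 x (SB.s1 x hx) h'.symm⟩
    have hm2 : ca2_cl G h m2 := fun x hx =>
      ⟨(nB x (SB.s2 x hx)).2.2.1, fun h' => hT.hb.2 x (SB.s2 x hx) h'.symm⟩
    have hAh' : ∀ w, (w = a ∨ w ∈ la ∨ w = a') → h ≠ w ∧ ¬ G.Adj h w := fun w hw =>
      ⟨(hT.ca w hw).2.2.2.1.symm, fun h' => hAh w hw h'.symm⟩
    have hBg' : ∀ w, (w = b ∨ w ∈ lb ∨ w = b') → g ≠ w ∧ ¬ G.Adj g w := fun w hw =>
      ⟨(hT.cb w hw).2.2.1.symm, fun h' => hBg w hw h'.symm⟩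
    refine hNo preA2g (by simp [preCIs])
      (fun i => ([v, a, b, c, g, h, aj, a', bj, b', q, q'] : List V).getD i v)
      [M, l1, l2, m1, m2] ⟨?_, ?_, ?_, ?_, ?_, ?_, ?_, ?_, ?_, ?_, hsep⟩
    · simp [preA2g]
      exact ⟨hC.va, hC.vb, hC.vc, hT.cg, hT.ch, hT.ag, hT.bh, SA.fq.symm, SB.fq.symm⟩
    · simp [preA2g]
      exact ⟨⟨nab, dab⟩, hT.ab a aA bj bjB, hT.ab a aA b' b'B, hT.ab aj ajA b bB,
        hT.ab aj ajA bj bjB, hT.ab aj ajA b' b'B, hT.ab a' a'A b bB, hT.ab a' a'A bj bjB,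
        hT.ab a' a'A b' b'B, dA a aA, dA aj ajA, dA a' a'A, dB b bB, dB bj bjB, dB b' b'B,
        (hQ q qQ).1, (hQ q' q'Q).1, hAh' a aA, hAh' aj ajA, hAh' a' a'A, hBg' b bB, hBg' bj bjB,
        hBg' b' b'B⟩
    · simp [preA2g]
      exact ⟨hgh, (hT.ca a aA).2.2.1, (hT.ca aj ajA).2.2.1, (hT.cb b bB).2.2.2.1,
        (hT.cb bj bjB).2.2.2.1, hT.vg, hT.vh, (hQA q qQ a aA).symm, (hQA q qQ a' a'A).symm,
        (hQB q' q'Q b bB).symm, (hQB q' q'Q b' b'B).symm, (hQB q qQ b bB).symm,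
        (hQB q qQ bj bjB).symm, (hQB q qQ b' b'B).symm, (hQA q' q'Q a aA).symm,
        (hQA q' q'Q aj ajA).symm, (hQA q' q'Q a' a'A).symm⟩
    · simp [preA2g]
      exact ⟨fun hh => cA a aA hh, fun hh => cA aj ajA hh, fun hh => cB b bB hh,
        fun hh => cB bj bjB hh, c1, c2, fun hh => cq hh b bB, fun hh => cq hh bj bjB,
        fun hh => cq hh b' b'B, fun hh => cq' hh a aA, fun hh => cq' hh aj ajA,
        fun hh => cq' hh a' a'A,
        fun hh => SA.aa (hh 1 6 (Or.inl ⟨rfl, rfl⟩)) (hh 6 7 (Or.inr ⟨rfl, rfl⟩)),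
        fun hh => SB.aa (hh 2 8 (Or.inl ⟨rfl, rfl⟩)) (hh 8 9 (Or.inr ⟨rfl, rfl⟩))⟩
    · simp [preA2g]
      exact ⟨SA.ac1, SA.ac2, SB.ac1, SB.ac2⟩
    · simp [preA2g]
    · simp [preA2g]
      exact ⟨tM.1, t1.1, t2.1, t3.1, t4.1⟩
    · simp [preA2g]
      exact ⟨tM.2, t1.2, t2.2, t3.2, t4.2⟩
    · intro y hy i hi hm
      simp [preA2g] at hy hi
      rcases hy with rfl | rfl | rfl | rfl | rfl
      · obtain ⟨k0, k4, k5, k10, k11⟩ := nM _ hm
        interval_cases i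
        · exact k0 rfl
        · exact (hMA a aA _ hm).1 rfl
        · exact (hMB b bB _ hm).1 rfl
        · exact (cc.2.2.2.2 _ hm).1 rfl
        · exact k4 rfl
        · exact k5 rfl
        · exact (hMA aj ajA _ hm).1 rfl
        · exact (hMA a' a'A _ hm).1 rfl
        · exact (hMB bj bjB _ hm).1 rfl
        · exact (hMB b' b'B _ hm).1 rfl
        · exact k10 rfl
        · exact k11 rfl
      · obtain ⟨k0, k4, k5, k10, k11⟩ := nA _ (SA.s1 _ hm)
        obtain ⟨j1, j2, j3, _, _, _⟩ := SA.F1 _ hm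
        interval_cases i
        · exact k0 rfl
        · exact j1 rfl
        · exact ((cBA b bB).1 _ hm).1 rfl
        · exact (cc.1 _ hm).1 rfl
        · exact k4 rfl
        · exact k5 rfl
        · exact j2 rfl
        · exact j3 rfl
        · exact ((cBA bj bjB).1 _ hm).1 rfl
        · exact ((cBA b' b'B).1 _ hm).1 rfl
        · exact k10 rfl
        · exact k11 rfl
      · obtain ⟨k0, k4, k5, k10, k11⟩ := nA _ (SA.s2 _ hm)
        obtain ⟨j1, j2, j3, _⟩ := SA.F2 _ hm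
        interval_cases i
        · exact k0 rfl
        · exact j3 rfl
        · exact ((cBA b bB).2 _ hm).1 rfl
        · exact (cc.2.1 _ hm).1 rfl
        · exact k4 rfl
        · exact k5 rfl
        · exact j1 rfl
        · exact j2 rfl
        · exact ((cBA bj bjB).2 _ hm).1 rfl
        · exact ((cBA b' b'B).2 _ hm).1 rfl
        · exact k10 rfl
        · exact k11 rfl
      · obtain ⟨k0, k4, k5, k10, k11⟩ := nB _ (SB.s1 _ hm)
        obtain ⟨j1, j2, j3, _, _, _⟩ := SB.F1 _ hm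
        interval_cases i
        · exact k0 rfl
        · exact ((cAB a aA).1 _ hm).1 rfl
        · exact j1 rfl
        · exact (cc.2.2.1 _ hm).1 rfl
        · exact k4 rfl
        · exact k5 rfl
        · exact ((cAB aj ajA).1 _ hm).1 rfl
        · exact ((cAB a' a'A).1 _ hm).1 rfl
        · exact j2 rfl
        · exact j3 rfl
        · exact k10 rfl
        · exact k11 rfl
      · obtain ⟨k0, k4, k5, k10, k11⟩ := nB _ (SB.s2 _ hm)
        obtain ⟨j1, j2, j3, _⟩ := SB.F2 _ hm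
        interval_cases i
        · exact k0 rfl
        · exact ((cAB a aA).2 _ hm).1 rfl
        · exact j3 rfl
        · exact (cc.2.2.2.1 _ hm).1 rfl
        · exact k4 rfl
        · exact k5 rfl
        · exact ((cAB aj ajA).2 _ hm).1 rfl
        · exact ((cAB a' a'A).2 _ hm).1 rfl
        · exact j1 rfl
        · exact j2 rfl
        · exact k10 rfl
        · exact k11 rfl
    · intro y hy i hi hU hu hw x hx
      simp [preA2g] at hy hi
      rcases hy with rfl | rfl | rfl | rfl | rfl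
      · interval_cases i
        · exact absurd (by simp) hU
        · exact (hMA a aA _ hx).2
        · exact (hMB b bB _ hx).2
        · exact (cc.2.2.2.2 _ hx).2
        · exact absurd (by simp) hU
        · exact absurd (by simp) hU
        · exact (hMA aj ajA _ hx).2
        · exact (hMA a' a'A _ hx).2
        · exact (hMB bj bjB _ hx).2
        · exact (hMB b' b'B _ hx).2
        · exact absurd rfl hu
        · exact absurd rfl hw
      · obtain ⟨_, _, _, j7, j10, j11⟩ := SA.F1 _ hx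
        interval_cases i
        · exact absurd (by simp) hU
        · exact absurd rfl hu
        · exact ((cBA b bB).1 _ hx).2
        · exact (cc.1 _ hx).2
        · exact (gl1 _ hx).2
        · exact (hl1 _ hx).2
        · exact absurd rfl hw
        · exact j7 hw
        · exact ((cBA bj bjB).1 _ hx).2
        · exact ((cBA b' b'B).1 _ hx).2
        · exact j10
        · exact j11
      · obtain ⟨_, _, _, j1⟩ := SA.F2 _ hx
        interval_cases i
        · exact absurd (by simp) hU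
        · exact j1 hu
        · exact ((cBA b bB).2 _ hx).2
        · exact (cc.2.1 _ hx).2
        · exact (gl2 _ hx).2
        · exact (hl2 _ hx).2
        · exact absurd rfl hu
        · exact absurd rfl hw
        · exact ((cBA bj bjB).2 _ hx).2
        · exact ((cBA b' b'B).2 _ hx).2
        · exact absurd (by simp) hU
        · exact absurd (by simp) hU
      · obtain ⟨_, _, _, j7, j10, j11⟩ := SB.F1 _ hx
        interval_cases i
        · exact absurd (by simp) hU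
        · exact ((cAB a aA).1 _ hx).2
        · exact absurd rfl hu
        · exact (cc.2.2.1 _ hx).2
        · exact (gm1 _ hx).2
        · exact (hm1 _ hx).2
        · exact ((cAB aj ajA).1 _ hx).2
        · exact ((cAB a' a'A).1 _ hx).2
        · exact absurd rfl hw
        · exact j7 hw
        · exact j11
        · exact j10
      · obtain ⟨_, _, _, j1⟩ := SB.F2 _ hx
        interval_cases i
        · exact absurd (by simp) hU
        · exact ((cAB a aA).2 _ hx).2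
        · exact j1 hu
        · exact (cc.2.2.2.1 _ hx).2
        · exact (gm2 _ hx).2
        · exact (hm2 _ hx).2
        · exact ((cAB aj ajA).2 _ hx).2
        · exact ((cAB a' a'A).2 _ hx).2
        · exact absurd rfl hu
        · exact absurd rfl hw
        · exact absurd (by simp) hU
        · exact absurd (by simp) hU
  · -- g = h
    subst hgh
    have gl1 : ca2_cl G g l1 := fun x hx =>
      ⟨(nA x (SA.s1 x hx)).2.1, fun h' => hT.ga.2 x (SA.s1 x hx) h'.symm⟩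
    have gl2 : ca2_cl G g l2 := fun x hx =>
      ⟨(nA x (SA.s2 x hx)).2.1, fun h' => hT.ga.2 x (SA.s2 x hx) h'.symm⟩
    have gm1 : ca2_cl G g m1 := fun x hx =>
      ⟨(nB x (SB.s1 x hx)).2.1, fun h' => hT.hb.2 x (SB.s1 x hx) h'.symm⟩
    have gm2 : ca2_cl G g m2 := fun x hx =>
      ⟨(nB x (SB.s2 x hx)).2.1, fun h' => hT.hb.2 x (SB.s2 x hx) h'.symm⟩
    refine hNo preA2p (by simp [preCIs])
      (fun i => ([v, a, b, c, g, aj, a', bj, b', q, q'] : List V).getD i v)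
      [M, l1, l2, m1, m2] ⟨?_, ?_, ?_, ?_, ?_, ?_, ?_, ?_, ?_, ?_, hsep⟩
    · simp [preA2p]
      exact ⟨hC.va, hC.vb, hC.vc, hT.cg, hT.ag, hT.bh, SA.fq.symm, SB.fq.symm⟩
    · simp [preA2p]
      exact ⟨⟨nab, dab⟩, hT.ab a aA bj bjB, hT.ab a aA b' b'B, hT.ab aj ajA b bB,
        hT.ab aj ajA bj bjB, hT.ab aj ajA b' b'B, hT.ab a' a'A b bB, hT.ab a' a'A bj bjB,
        hT.ab a' a'A b' b'B, dA a aA, dA aj ajA, dA a' a'A, dB b bB, dB bj bjB, dB b' b'B,
        (hQ q qQ).1, (hQ q' q'Q).1, ⟨(hT.ca a aA).2.2.1, hag⟩, ⟨(hT.cb b bB).2.2.1, hbg⟩⟩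
    · simp [preA2p]
      exact ⟨(hT.ca aj ajA).2.2.1, (hT.cb bj bjB).2.2.2.1, hT.vg, (hQA q qQ a aA).symm,
        (hQA q qQ a' a'A).symm, (hQB q' q'Q b bB).symm, (hQB q' q'Q b' b'B).symm,
        (hQB q qQ b bB).symm, (hQB q qQ bj bjB).symm, (hQB q qQ b' b'B).symm,
        (hQA q' q'Q a aA).symm, (hQA q' q'Q aj ajA).symm, (hQA q' q'Q a' a'A).symm⟩
    · simp [preA2p]
      exact ⟨fun hh => cA aj ajA hh, fun hh => cB bj bjB hh, c1, c2, fun hh => cq hh b bB,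
        fun hh => cq hh bj bjB, fun hh => cq hh b' b'B, fun hh => cq' hh a aA,
        fun hh => cq' hh aj ajA, fun hh => cq' hh a' a'A,
        fun hh => SA.aa (hh 1 5 (Or.inl ⟨rfl, rfl⟩)) (hh 5 6 (Or.inr ⟨rfl, rfl⟩)),
        fun hh => SB.aa (hh 2 7 (Or.inl ⟨rfl, rfl⟩)) (hh 7 8 (Or.inr ⟨rfl, rfl⟩))⟩
    · simp [preA2p]
      exact ⟨SA.ac1, SA.ac2, SB.ac1, SB.ac2⟩
    · simp [preA2p]
    · simp [preA2p]
      exact ⟨tM.1, t1.1, t2.1, t3.1, t4.1⟩
    · simp [preA2p]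
      exact ⟨tM.2, t1.2, t2.2, t3.2, t4.2⟩
    · intro y hy i hi hm
      simp [preA2p] at hy hi
      rcases hy with rfl | rfl | rfl | rfl | rfl
      · obtain ⟨k0, k4, k5, k10, k11⟩ := nM _ hm
        interval_cases i
        · exact k0 rfl
        · exact (hMA a aA _ hm).1 rfl
        · exact (hMB b bB _ hm).1 rfl
        · exact (cc.2.2.2.2 _ hm).1 rfl
        · exact k4 rfl
        · exact (hMA aj ajA _ hm).1 rfl
        · exact (hMA a' a'A _ hm).1 rfl
        · exact (hMB bj bjB _ hm).1 rfl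
        · exact (hMB b' b'B _ hm).1 rfl
        · exact k10 rfl
        · exact k11 rfl
      · obtain ⟨k0, k4, k5, k10, k11⟩ := nA _ (SA.s1 _ hm)
        obtain ⟨j1, j2, j3, _, _, _⟩ := SA.F1 _ hm
        interval_cases i
        · exact k0 rfl
        · exact j1 rfl
        · exact ((cBA b bB).1 _ hm).1 rfl
        · exact (cc.1 _ hm).1 rfl
        · exact k4 rfl
        · exact j2 rfl
        · exact j3 rfl
        · exact ((cBA bj bjB).1 _ hm).1 rfl
        · exact ((cBA b' b'B).1 _ hm).1 rfl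
        · exact k10 rfl
        · exact k11 rfl
      · obtain ⟨k0, k4, k5, k10, k11⟩ := nA _ (SA.s2 _ hm)
        obtain ⟨j1, j2, j3, _⟩ := SA.F2 _ hm
        interval_cases i
        · exact k0 rfl
        · exact j3 rfl
        · exact ((cBA b bB).2 _ hm).1 rfl
        · exact (cc.2.1 _ hm).1 rfl
        · exact k4 rfl
        · exact j1 rfl
        · exact j2 rfl
        · exact ((cBA bj bjB).2 _ hm).1 rfl
        · exact ((cBA b' b'B).2 _ hm).1 rfl
        · exact k10 rfl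
        · exact k11 rfl
      · obtain ⟨k0, k4, k5, k10, k11⟩ := nB _ (SB.s1 _ hm)
        obtain ⟨j1, j2, j3, _, _, _⟩ := SB.F1 _ hm
        interval_cases i
        · exact k0 rfl
        · exact ((cAB a aA).1 _ hm).1 rfl
        · exact j1 rfl
        · exact (cc.2.2.1 _ hm).1 rfl
        · exact k4 rfl
        · exact ((cAB aj ajA).1 _ hm).1 rfl
        · exact ((cAB a' a'A).1 _ hm).1 rfl
        · exact j2 rfl
        · exact j3 rfl
        · exact k10 rfl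
        · exact k11 rfl
      · obtain ⟨k0, k4, k5, k10, k11⟩ := nB _ (SB.s2 _ hm)
        obtain ⟨j1, j2, j3, _⟩ := SB.F2 _ hm
        interval_cases i
        · exact k0 rfl
        · exact ((cAB a aA).2 _ hm).1 rfl
        · exact j3 rfl
        · exact (cc.2.2.2.1 _ hm).1 rfl
        · exact k4 rfl
        · exact ((cAB aj ajA).2 _ hm).1 rfl
        · exact ((cAB a' a'A).2 _ hm).1 rfl
        · exact j1 rfl
        · exact j2 rfl
        · exact k10 rfl
        · exact k11 rfl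
    · intro y hy i hi hU hu hw x hx
      simp [preA2p] at hy hi
      rcases hy with rfl | rfl | rfl | rfl | rfl
      · interval_cases i
        · exact absurd (by simp) hU
        · exact (hMA a aA _ hx).2
        · exact (hMB b bB _ hx).2
        · exact (cc.2.2.2.2 _ hx).2
        · exact absurd (by simp) hU
        · exact (hMA aj ajA _ hx).2
        · exact (hMA a' a'A _ hx).2
        · exact (hMB bj bjB _ hx).2
        · exact (hMB b' b'B _ hx).2
        · exact absurd rfl hu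
        · exact absurd rfl hw
      · obtain ⟨_, _, _, j7, j10, j11⟩ := SA.F1 _ hx
        interval_cases i
        · exact absurd (by simp) hU
        · exact absurd rfl hu
        · exact ((cBA b bB).1 _ hx).2
        · exact (cc.1 _ hx).2
        · exact (gl1 _ hx).2
        · exact absurd rfl hw
        · exact j7 hw
        · exact ((cBA bj bjB).1 _ hx).2
        · exact ((cBA b' b'B).1 _ hx).2
        · exact j10
        · exact j11
      · obtain ⟨_, _, _, j1⟩ := SA.F2 _ hx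
        interval_cases i
        · exact absurd (by simp) hU
        · exact j1 hu
        · exact ((cBA b bB).2 _ hx).2
        · exact (cc.2.1 _ hx).2
        · exact (gl2 _ hx).2
        · exact absurd rfl hu
        · exact absurd rfl hw
        · exact ((cBA bj bjB).2 _ hx).2
        · exact ((cBA b' b'B).2 _ hx).2
        · exact absurd (by simp) hU
        · exact absurd (by simp) hU
      · obtain ⟨_, _, _, j7, j10, j11⟩ := SB.F1 _ hx
        interval_cases i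
        · exact absurd (by simp) hU
        · exact ((cAB a aA).1 _ hx).2
        · exact absurd rfl hu
        · exact (cc.2.2.1 _ hx).2
        · exact (gm1 _ hx).2
        · exact ((cAB aj ajA).1 _ hx).2
        · exact ((cAB a' a'A).1 _ hx).2
        · exact absurd rfl hw
        · exact j7 hw
        · exact j11
        · exact j10
      · obtain ⟨_, _, _, j1⟩ := SB.F2 _ hx
        interval_cases i
        · exact absurd (by simp) hU
        · exact ((cAB a aA).2 _ hx).2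
        · exact j1 hu
        · exact (cc.2.2.2.1 _ hx).2
        · exact (gm2 _ hx).2
        · exact ((cAB aj ajA).2 _ hx).2
        · exact ((cAB a' a'A).2 _ hx).2
        · exact absurd rfl hu
        · exact absurd rfl hw
        · exact absurd (by simp) hU
        · exact absurd (by simp) hU

end Pool.Agent.Helper64.FL
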