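import Pool.Agent.Helper64.FL.StH

set_option autoImplicit false

/-! Full list for MP_866009_co: ST_CLX. -/

namespace Pool.Agent.Helper64.FL

open Pool.Agent.Helper64.CT Pool.Agent.Helper64.DT
open Pool.Agent.Helper64.HG (Ovl Model Circ IC HellyCircle ChordModel)

/-- connection through a common neighbour -/
theorem clx_con {V : Type} {G : SimpleGraph V} (hCN : ST_CNB) {x v w q : V}
    (hw : w ∈ Far G x) (hv : v ∈ Far G w) (hxq : G.Adj x q) (hvq : G.Adj v q)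
    (hwq : ¬ G.Adj w q) : Comp G w x v := by
  obtain ⟨_, htr, _, hadj, hcomp, _⟩ := hCN V G
  rw [hcomp]
  have h1 : x ∈ Far G w := ⟨hw.1.symm, fun h => hw.2 h.symm⟩
  have h2 : q ∈ Far G w := ⟨fun h => hw.2 (h ▸ hxq), hwq⟩
  exact htr _ _ _ _ (hadj _ _ _ h1 h2 hxq) (hadj _ _ _ h2 hv hvq.symm)

theorem st_CLX (hCN : ST_CNB) (hD0 : ST_D0F) (hL : ST_L3) (hS : ST_STB) : ST_CLX := by
  intro V G x k y hDF hCI hM hD
  by_contra hcon
  rw [not_or] at hcon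
  obtain ⟨hc1, hc2⟩ := hcon
  push Not at hc1 hc2
  obtain ⟨v', hv', q', hq', hvq'⟩ := hc1
  obtain ⟨v, hv, q, hq, hvq⟩ := hc2
  have hv1 : ∀ n ∈ Att G x (y 1), G.Adj v n := by
    rcases hL V G x k y hM hD v hv with h | h
    · exact h
    · exact absurd (h q hq) hvq
  have hv2 : ∀ n ∈ Att G x (y (k - 1)), G.Adj v' n := by
    rcases hL V G x k y hM hD v' hv' with h | h
    · exact absurd (h q' hq') hvq'
    · exact h
  obtain ⟨_, _, _, ⟨n, hn, m, hm, hnm⟩, _⟩ := hD0 V G x k y hM hD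
  have hvx : v ∈ Far G x := hv.1.2.1
  have hvx' : v' ∈ Far G x := hv'.1.2.1
  have hxR : ∀ w ∈ RR G x k y, G.Adj x w := by
    intro w hw
    obtain ⟨j, _, _, hj⟩ := hw
    exact hj.1
  have hne : v ≠ v' := by
    rintro rfl
    exact hvq' (hv1 q' hq')
  have h1 : ¬ G.Adj n m := (hS V G hDF x v n m hvx.1 hnm (hxR n hn) (hxR m hm) (hv.2 n hn)
    (hv.2 m hm)).1 hvx.2
  have h2 : ¬ G.Adj v' v := (hS V G hDF v' v n m hne hnm (hv'.2 n hn) (hv'.2 m hm) (hv.2 n hn)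
    (hv.2 m hm)).2 h1
  apply hCI
  refine ⟨n, x, v, v', (hxR n hn).symm, (hv.2 n hn).symm, (hv'.2 n hn).symm, ?_, ?_, ?_⟩
  · exact clx_con hCN hvx' ⟨hne, h2⟩ hq'.1 (hv1 q' hq') hvq'
  · obtain ⟨hsym, htr, _, _, hcomp, _⟩ := hCN V G
    have e1 := hv.1
    have e2 := hv'.1
    rw [hcomp] at e1 e2 ⊢
    exact htr _ _ _ _ (hsym _ _ _ e1).2 e2
  · exact clx_con hCN hvx ⟨hne.symm, fun h => h2 h.symm⟩ hq.1 (hv2 q hq) hvq

end Pool.Agent.Helper64.FL
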