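import Pool.Agent.Helper64.FL.StH

set_option autoImplicit false

/-! Full list for MP_866009_co: ST_DI0. -/

namespace Pool.Agent.Helper64.FL

open Pool.Agent.Helper64.CT Pool.Agent.Helper64.DT
open Pool.Agent.Helper64.HG (Ovl Model Circ IC HellyCircle ChordModel)

/-- connection along a part of an arc -/
theorem di0_arc {V : Type} {G : SimpleGraph V} (hA : ST_ARC) {x : V} {n : ℕ → V}
    {P : ℕ → List V} {b : ℕ} (h : Arc G x n P 0 b) (w c d : ℕ) (hcd : c ≤ d) (hd : d ≤ b)
    (hw : w ≤ b) (hwc : w < c ∨ d < w) (hn : ∀ i, c ≤ i → i ≤ d → ¬ G.Adj (n w) (n i)) :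
    Comp G (n w) (n c) (n d) := by
  obtain ⟨h1, _⟩ := hA V G x n P 0 b h
  have h2 := h1 c d (Nat.zero_le _) hcd hd
  obtain ⟨_, h3⟩ := hA V G x n P c d h2
  refine h3 (n w) ?_ ?_ c d le_rfl hcd hcd le_rfl
  · intro i hi hi'
    refine ⟨?_, hn i hi hi'⟩
    rcases hwc with hw' | hw'
    · exact (h.inj w i (Nat.zero_le _) (by omega) (by omega)).symm
    · exact h.inj i w (Nat.zero_le _) (by omega) (by omega)
  · intro i hi hi' u hu
    refine ⟨?_, h.cln i w (Nat.zero_le _) (by omega) (Nat.zero_le _) hw (by omega) (by omega) u hu⟩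
    rintro rfl
    exact (h.far i (Nat.zero_le _) (by omega) _ hu).2 (h.xn w (Nat.zero_le _) hw)

theorem st_DI0 (hCN : ST_CNB) (hD0 : ST_D0F) (hD1 : ST_D1F) (hDA : ST_D1A) (hA : ST_ARC)
    (_hS : ST_STB) : ST_DI0 := by
  intro V G x k y u0 Lu um hDF hCI hD hu0 hLu
  obtain ⟨hsym, htr, _, hadj, hcomp, _, hpth⟩ := hCN V G
  obtain ⟨f1, f2, f3, _, f5, _⟩ := hD1 V G x k y u0 Lu um hD
  have f5' := (f5 hu0).1
  obtain ⟨p, hp, hump⟩ := hD.mm.1
  obtain ⟨q, hq, hu0q⟩ := hD.m0.1
  have hpR : p ∉ RR G x k y := fun h => f3 p h hump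
  have hqR : q ∉ RR G x k y := fun h => f5' q h hu0q
  obtain ⟨n, P, hArc, hn0, hnk, hnR, _, hnn, hqn⟩ :=
    hDA V G x k y u0 Lu um hDF hD p q hp hpR hq hqR
  have hk := hD.moc.k5
  -- the path in the component of y 0
  have hUR : ∀ w ∈ RR G x k y, ∀ u, (u = u0 ∨ u ∈ Lu ∨ u = um) → u ∈ Far G w := by
    intro w hw u hu
    have hux : u ∈ Far G x := by
      have h1 : u ∈ KC G x (y 0) := by
        rcases hu with rfl | hu | rfl
        · exact hD.p.lK
        · exact hD.p.LK u hu
        · exact hD.p.rK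
      exact h1.2.1
    have hxw : G.Adj x w := by
      obtain ⟨j, _, _, hj⟩ := hw
      exact hj.1
    refine ⟨?_, ?_⟩
    · rintro rfl
      exact hux.2 hxw
    · intro hwu
      rcases hu with rfl | hu | rfl
      · exact f5' w hw hwu.symm
      · rcases f1 u hu with h1 | h1
        · exact hLu u hu h1.1
        · obtain ⟨j, hj1, hj2, hj⟩ := hw
          exact h1.2 j (by omega) (by omega) w hj hwu.symm
      · exact f3 w hw hwu.symm
  have hU : ∀ w ∈ RR G x k y, p ∈ Far G w → q ∈ Far G w → Comp G w p q := by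
    intro w hw hpw hqw
    rw [hcomp]
    have h0 := hUR w hw u0 (Or.inl rfl)
    have hm := hUR w hw um (Or.inr (Or.inr rfl))
    have h1 : Cn G (Far G w) u0 um := hpth _ _ _ _ hD.p.pth
      ⟨h0, hm, fun u hu => hUR w hw u (Or.inr (Or.inl hu))⟩
    have h2 : Cn G (Far G w) p um := hadj _ _ _ hpw hm hump.symm
    have h3 : Cn G (Far G w) u0 q := hadj _ _ _ h0 hqw hu0q
    exact htr _ _ _ _ h2 (htr _ _ _ _ (hsym _ _ _ h1).2 h3)
  have hR1 : n 1 ∈ RR G x k y := (hnR 1 le_rfl (by omega)).2.2
  have hR2 : n 2 ∈ RR G x k y := (hnR 2 (by omega) (by omega)).2.2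
  have hx : ∀ i, i + 1 ≤ k → G.Adj x (n i) := fun i hi => hArc.xn i (Nat.zero_le _) (by omega)
  have hinj : ∀ i j, i < j → j + 1 ≤ k → n i ≠ n j := fun i j hij hj =>
    hArc.inj i j (Nat.zero_le _) hij (by omega)
  have hxp : G.Adj x p := hp.1
  have hxq : G.Adj x q := hq.1
  have hpq : p ≠ q := by
    rw [← hn0, ← hnk]
    exact hinj 0 (k - 1) (by omega) (by omega)
  have hpn : ∀ j, 1 ≤ j → j + 2 ≤ k → ¬ G.Adj p (n j) := by
    intro j hj hj'
    rw [← hn0]
    exact hnn 0 j hj hj'
  by_cases hpqa : G.Adj p q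
  · -- (a)
    have hq' : ∀ j, 1 ≤ j → j + 2 ≤ k → ¬ G.Adj q (n j) := by
      intro j hj hj'
      refine hqn 0 (by omega) ?_ j hj' (by omega)
      rw [hn0]
      exact hpqa.symm
    apply hCI
    refine ⟨x, n 1, n 2, n 3, hx 1 (by omega), hx 2 (by omega), hx 3 (by omega), ?_, ?_, ?_⟩
    · refine di0_arc hA hArc 3 1 2 (by omega) (by omega) (by omega) (by omega) ?_
      intro i hi hi' h
      exact hnn i 3 (by omega) (by omega) h.symm
    · refine di0_arc hA hArc 1 2 3 (by omega) (by omega) (by omega) (by omega) ?_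
      intro i hi hi' h
      exact hnn 1 i (by omega) (by omega) h
    · have h1 : Comp G (n 2) (n 0) (n 1) := by
        refine di0_arc hA hArc 2 0 1 (by omega) (by omega) (by omega) (by omega) ?_
        intro i hi hi' h
        exact hnn i 2 (by omega) (by omega) h.symm
      have h2 : Comp G (n 2) (n 3) (n (k - 1)) := by
        refine di0_arc hA hArc 2 3 (k - 1) (by omega) (by omega) (by omega) (by omega) ?_
        intro i hi hi' h
        by_cases hik : i + 2 ≤ k
        · exact hnn 2 i (by omega) hik h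
        · have : i = k - 1 := by omega
          rw [this, hnk] at h
          exact hq' 2 (by omega) (by omega) h.symm
      rw [hcomp] at h1 h2 ⊢
      have h3 : Cn G (Far G (n 2)) (n 0) (n (k - 1)) :=
        hadj _ _ _ h1.1 (hsym _ _ _ h2).1 (by rw [hn0, hnk]; exact hpqa)
      exact htr _ _ _ _ (hsym _ _ _ h1).2 (htr _ _ _ _ h3 (hsym _ _ _ h2).2)
  · by_cases hq1 : G.Adj q (n 1)
    · -- (c)
      have hq2 : ¬ G.Adj q (n 2) := hqn 1 (by omega) hq1 2 (by omega) (by omega)
      obtain ⟨⟨v, hv⟩, _⟩ := hD0 V G x k y hD.moc hD.dom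
      have hvx : v ∈ Far G x := hv.1.2.1
      have hvp : G.Adj v p := hD.u1 v hv p hp
      have hv1 : G.Adj v (n 1) := hv.2 _ hR1
      have hv2 : G.Adj v (n 2) := hv.2 _ hR2
      have hvq : ¬ G.Adj q v := by
        intro h
        exact hvx.2 (hDF (n 1) q x v hq1.symm (hx 1 (by omega)).symm hxq.symm hv1.symm h
          hvx.1.symm)
      apply hCI
      refine ⟨x, p, q, n 2, hxp, hxq, hx 2 (by omega), ?_, ?_, ?_⟩
      · apply hU (n 2) hR2
        · refine ⟨?_, fun h => hpn 2 (by omega) (by omega) h.symm⟩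
          rw [← hn0]; exact hinj 0 2 (by omega) (by omega)
        · refine ⟨?_, fun h => hq2 h.symm⟩
          rw [← hnk]; exact (hinj 2 (k - 1) (by omega) (by omega)).symm
      · have h1 := di0_arc hA hArc 0 2 (k - 1) (by omega) (by omega) (by omega) (by omega) (by
          intro i hi hi' h
          rw [hn0] at h
          by_cases hik : i + 2 ≤ k
          · exact hpn i (by omega) hik h
          · have : i = k - 1 := by omega
            rw [this, hnk] at h
            exact hpqa h)
        rw [hn0, hnk, hcomp] at h1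
        rw [hcomp]
        exact (hsym _ _ _ h1).2
      · rw [hcomp]
        have hpF : p ∈ Far G q := ⟨hpq, fun h => hpqa h.symm⟩
        have hvF : v ∈ Far G q := ⟨fun h => hvx.2 (h ▸ hxq), hvq⟩
        have hnF : n 2 ∈ Far G q := ⟨by rw [← hnk]; exact hinj 2 (k - 1) (by omega) (by omega), hq2⟩
        exact htr _ _ _ _ (hadj _ _ _ hpF hvF hvp.symm) (hadj _ _ _ hvF hnF hv2)
    · -- (b)
      apply hCI
      refine ⟨x, p, q, n 1, hxp, hxq, hx 1 (by omega), ?_, ?_, ?_⟩
      · apply hU (n 1) hR1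
        · refine ⟨?_, fun h => hpn 1 (by omega) (by omega) h.symm⟩
          rw [← hn0]; exact hinj 0 1 (by omega) (by omega)
        · refine ⟨?_, fun h => hq1 h.symm⟩
          rw [← hnk]; exact (hinj 1 (k - 1) (by omega) (by omega)).symm
      · have h1 := di0_arc hA hArc 0 1 (k - 1) (by omega) (by omega) (by omega) (by omega) (by
          intro i hi hi' h
          rw [hn0] at h
          by_cases hik : i + 2 ≤ k
          · exact hpn i (by omega) hik h
          · have : i = k - 1 := by omega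
            rw [this, hnk] at h
            exact hpqa h)
        rw [hn0, hnk, hcomp] at h1
        rw [hcomp]
        exact (hsym _ _ _ h1).2
      · have h1 := di0_arc hA hArc (k - 1) 0 1 (by omega) (by omega) (by omega) (by omega) (by
          intro i hi hi' h
          rw [hnk] at h
          have hi2 : i = 0 ∨ i = 1 := by omega
          rcases hi2 with rfl | rfl
          · rw [hn0] at h; exact hpqa h.symm
          · exact hq1 h)
        rw [hn0, hnk] at h1
        exact h1

end Pool.Agent.Helper64.FL
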