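import Pool.Agent.Helper64.FL.StC

/-! QKB: a second connection between `x` and `y` that is anticomplete to the arms. -/

set_option autoImplicit false

namespace Pool.Agent.Helper64.FL

open Pool.Agent.Helper64.CT Pool.Agent.Helper64.DT
open Pool.Agent.Helper64.HG (Ovl Model Circ IC HellyCircle ChordModel)

theorem qkb_pth {V : Type} {G : SimpleGraph V} {a w : V} {l : List V} (h : Pth G a l w)
    (hne : a ≠ w) : IPt G (a :: (l ++ [w])) := by
  rcases h with ⟨h, -⟩ | ⟨-, h⟩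
  · exact absurd h hne
  · exact h

theorem qkb_tri {V : Type} {G : SimpleGraph V} {a w : V} {l : List V} (h : Pth G a l w)
    (he : a = w) : l = [] := by
  rcases h with ⟨-, h⟩ | ⟨h, -⟩
  · exact h
  · exact absurd he h

theorem qkb_far {V : Type} {G : SimpleGraph V} {x u : V} (h : u ∈ Far G x) :
    x ≠ u ∧ ¬ G.Adj x u := ⟨fun e => h.1 e.symm, h.2⟩

theorem qkb_far' {V : Type} {G : SimpleGraph V} {x u : V} (h : u ∈ Far G x) :
    u ≠ x ∧ ¬ G.Adj u x := ⟨h.1, fun e => h.2 e.symm⟩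

theorem qkb_sym {V : Type} {G : SimpleGraph V} {x u : V} (h : x ≠ u ∧ ¬ G.Adj x u) :
    u ≠ x ∧ ¬ G.Adj u x := ⟨h.1.symm, fun e => h.2 e.symm⟩

theorem st_QKB (hB : ST_PTB) : ST_QKB := by
  intro V G S hN x y z a la a' b lb b' m m' hxy hxz hyz hT hmm s l t hP hxs hyt sy sz tx tz sm tm'
    hl hA hB'
  obtain ⟨-, hPn, -⟩ := hB V G
  obtain ⟨ala, a'la, -⟩ := hPn a la a' hT.A.pth
  obtain ⟨blb, b'lb, -⟩ := hPn b lb b' hT.B.pth
  obtain ⟨sl, tl, -⟩ := hPn s l t hP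
  have aA : a ∈ PV a la a' := Or.inl rfl
  have a'A : a' ∈ PV a la a' := Or.inr (Or.inr rfl)
  have lA : ∀ u ∈ la, u ∈ PV a la a' := fun u hu => Or.inr (Or.inl hu)
  have bB : b ∈ PV b lb b' := Or.inl rfl
  have b'B : b' ∈ PV b lb b' := Or.inr (Or.inr rfl)
  have lB : ∀ u ∈ lb, u ∈ PV b lb b' := fun u hu => Or.inr (Or.inl hu)
  have sP : s ∈ PV s l t := Or.inl rfl
  have tP : t ∈ PV s l t := Or.inr (Or.inr rfl)
  have lP : ∀ u ∈ l, u ∈ PV s l t := fun u hu => Or.inr (Or.inl hu)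
  obtain ⟨amm, aFm', bFm⟩ : G.Adj m m' ∧ PV a la a' ⊆ Far G m' ∧ PV b lb b' ⊆ Far G m := by
    rcases hT.mm with h | h
    · exact absurd h hmm
    · exact h
  -- edges
  have e32 : G.Adj m z := hT.zm.symm
  have e42 : G.Adj m' z := hT.zm'.symm
  have e50 : G.Adj a x := hT.A.yb.symm
  have e71 : G.Adj b y := hT.B.yb.symm
  have e36 : G.Adj m a' := hT.A.mb
  have e48 : G.Adj m' b' := hT.B.mb
  have e90 : G.Adj s x := hxs.symm
  have e101 : G.Adj t y := hyt.symm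
  -- nonadjacent pairs
  have d30 := qkb_far' hT.mF.1
  have d31 := qkb_far' hT.mF.2
  have d40 := qkb_far' hT.mF'.1
  have d41 := qkb_far' hT.mF'.2
  have d15 := qkb_far (hT.Ay aA)
  have d25 := qkb_far (hT.Az aA)
  have d57 := hT.AB a aA b bB
  have d58 := hT.AB a aA b' b'B
  have d45 := qkb_far (aFm' aA)
  have d16 := qkb_far (hT.Ay a'A)
  have d26 := qkb_far (hT.Az a'A)
  have d67 := hT.AB a' a'A b bB
  have d68 := hT.AB a' a'A b' b'B
  have d46 := qkb_far (aFm' a'A)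
  have d07 := qkb_far (hT.Bx bB)
  have d27 := qkb_far (hT.Bz bB)
  have d37 := qkb_far (bFm bB)
  have d08 := qkb_far (hT.Bx b'B)
  have d28 := qkb_far (hT.Bz b'B)
  have d38 := qkb_far (bFm b'B)
  have d91 := qkb_far' sy
  have d92 := qkb_far' sz
  have d100 := qkb_far' tx
  have d102 := qkb_far' tz
  have d95 := hA s sP a aA
  have d105 := hA t tP a aA
  have d96 := hA s sP a' a'A
  have d106 := hA t tP a' a'A
  have d97 := hB' s sP b bB
  have d107 := hB' t tP b bB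
  have d98 := hB' s sP b' b'B
  have d108 := hB' t tP b' b'B
  have d93 := qkb_far' sm
  have d104 := qkb_far' tm'
  -- different vertices
  have n06 : x ≠ a' := fun h => (hT.A.ny a' a'A).1 h.symm
  have n18 : y ≠ b' := fun h => (hT.B.ny b' b'B).1 h.symm
  have n94 : s ≠ m' := fun h => d40.2 (h ▸ e90)
  have n103 : t ≠ m := fun h => d31.2 (h ▸ e101)
  -- conditional pairs
  have c1 : a ≠ a' → x ≠ a' ∧ ¬ G.Adj x a' :=
    fun h => ⟨n06, fun h' => h ((hT.A.ny a' a'A).2 h').symm⟩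
  have c2 : b ≠ b' → y ≠ b' ∧ ¬ G.Adj y b' :=
    fun h => ⟨n18, fun h' => h ((hT.B.ny b' b'B).2 h').symm⟩
  have c3 : a ≠ a' → m ≠ a ∧ ¬ G.Adj m a :=
    fun h => ⟨fun h' => (hT.A.nm a aA).1 h'.symm, fun h' => h ((hT.A.nm a aA).2 h')⟩
  have c4 : b ≠ b' → m' ≠ b ∧ ¬ G.Adj m' b :=
    fun h => ⟨fun h' => (hT.B.nm b bB).1 h'.symm, fun h' => h ((hT.B.nm b bB).2 h')⟩
  -- vertices not on the paths
  have f0 : x ∉ la := fun h => (hT.A.ny x (lA _ h)).1 rfl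
  have f1 : y ∉ la := fun h => (hT.Ay (lA _ h)).1 rfl
  have f2 : z ∉ la := fun h => (hT.Az (lA _ h)).1 rfl
  have f3 : m ∉ la := fun h => (hT.A.nm m (lA _ h)).1 rfl
  have f4 : m' ∉ la := fun h => (aFm' (lA _ h)).1 rfl
  have f7 : b ∉ la := fun h => (hT.AB b (lA _ h) b bB).1 rfl
  have f8 : b' ∉ la := fun h => (hT.AB b' (lA _ h) b' b'B).1 rfl
  have f9 : s ∉ la := fun h => (hA s sP s (lA _ h)).1 rfl
  have f10 : t ∉ la := fun h => (hA t tP t (lA _ h)).1 rfl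
  have g0 : x ∉ lb := fun h => (hT.Bx (lB _ h)).1 rfl
  have g1 : y ∉ lb := fun h => (hT.B.ny y (lB _ h)).1 rfl
  have g2 : z ∉ lb := fun h => (hT.Bz (lB _ h)).1 rfl
  have g3 : m ∉ lb := fun h => (bFm (lB _ h)).1 rfl
  have g4 : m' ∉ lb := fun h => (hT.B.nm m' (lB _ h)).1 rfl
  have g5 : a ∉ lb := fun h => (hT.AB a aA a (lB _ h)).1 rfl
  have g6 : a' ∉ lb := fun h => (hT.AB a' a'A a' (lB _ h)).1 rfl
  have g9 : s ∉ lb := fun h => (hB' s sP s (lB _ h)).1 rfl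
  have g10 : t ∉ lb := fun h => (hB' t tP t (lB _ h)).1 rfl
  have h0 : x ∉ l := fun h => (hl x h).1.1 rfl
  have h1 : y ∉ l := fun h => (hl y h).2.1.1 rfl
  have h2 : z ∉ l := fun h => (hl z h).2.2.1 rfl
  have h3 : m ∉ l := fun h => (hl m h).2.2.2 hT.zm
  have h4 : m' ∉ l := fun h => (hl m' h).2.2.2 hT.zm'
  have h5 : a ∉ l := fun h => (hA a (lP _ h) a aA).1 rfl
  have h6 : a' ∉ l := fun h => (hA a' (lP _ h) a' a'A).1 rfl
  have h7 : b ∉ l := fun h => (hB' b (lP _ h) b bB).1 rfl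
  have h8 : b' ∉ l := fun h => (hB' b' (lP _ h) b' b'B).1 rfl
  -- clean paths
  have p0 : ∀ u ∈ la, ¬ G.Adj x u := fun u hu h =>
    ala ((hT.A.ny u (lA u hu)).2 h ▸ hu)
  have p1 : ∀ u ∈ la, ¬ G.Adj y u := fun u hu => (hT.Ay (lA u hu)).2
  have p2 : ∀ u ∈ la, ¬ G.Adj z u := fun u hu => (hT.Az (lA u hu)).2
  have p3 : ∀ u ∈ la, ¬ G.Adj m u := fun u hu h =>
    a'la ((hT.A.nm u (lA u hu)).2 h ▸ hu)
  have p4 : ∀ u ∈ la, ¬ G.Adj m' u := fun u hu => (aFm' (lA u hu)).2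
  have p7 : ∀ u ∈ la, ¬ G.Adj b u := fun u hu h => (hT.AB u (lA u hu) b bB).2 h.symm
  have p8 : ∀ u ∈ la, ¬ G.Adj b' u := fun u hu h => (hT.AB u (lA u hu) b' b'B).2 h.symm
  have p9 : ∀ u ∈ la, ¬ G.Adj s u := fun u hu => (hA s sP u (lA u hu)).2
  have p10 : ∀ u ∈ la, ¬ G.Adj t u := fun u hu => (hA t tP u (lA u hu)).2
  have q0 : ∀ u ∈ lb, ¬ G.Adj x u := fun u hu => (hT.Bx (lB u hu)).2
  have q1 : ∀ u ∈ lb, ¬ G.Adj y u := fun u hu h =>
    blb ((hT.B.ny u (lB u hu)).2 h ▸ hu)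
  have q2 : ∀ u ∈ lb, ¬ G.Adj z u := fun u hu => (hT.Bz (lB u hu)).2
  have q3 : ∀ u ∈ lb, ¬ G.Adj m u := fun u hu => (bFm (lB u hu)).2
  have q4 : ∀ u ∈ lb, ¬ G.Adj m' u := fun u hu h =>
    b'lb ((hT.B.nm u (lB u hu)).2 h ▸ hu)
  have q5 : ∀ u ∈ lb, ¬ G.Adj a u := fun u hu => (hT.AB a aA u (lB u hu)).2
  have q6 : ∀ u ∈ lb, ¬ G.Adj a' u := fun u hu => (hT.AB a' a'A u (lB u hu)).2
  have q9 : ∀ u ∈ lb, ¬ G.Adj s u := fun u hu => (hB' s sP u (lB u hu)).2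
  have q10 : ∀ u ∈ lb, ¬ G.Adj t u := fun u hu => (hB' t tP u (lB u hu)).2
  have r0 : ∀ u ∈ l, ¬ G.Adj x u := fun u hu => (hl u hu).1.2
  have r1 : ∀ u ∈ l, ¬ G.Adj y u := fun u hu => (hl u hu).2.1.2
  have r2 : ∀ u ∈ l, ¬ G.Adj z u := fun u hu => (hl u hu).2.2.2
  have r5 : ∀ u ∈ l, ¬ G.Adj a u := fun u hu h => (hA u (lP u hu) a aA).2 h.symm
  have r6 : ∀ u ∈ l, ¬ G.Adj a' u := fun u hu h => (hA u (lP u hu) a' a'A).2 h.symm
  have r7 : ∀ u ∈ l, ¬ G.Adj b u := fun u hu h => (hB' u (lP u hu) b bB).2 h.symm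
  have r8 : ∀ u ∈ l, ¬ G.Adj b' u := fun u hu h => (hB' u (lP u hu) b' b'B).2 h.symm
  have sp : ([la, lb, l] : List (List V)).Pairwise
      (fun A B => ∀ x ∈ A, ∀ y ∈ B, x ≠ y ∧ ¬ G.Adj x y) := by
    simp only [List.pairwise_cons, List.mem_cons, List.not_mem_nil, or_false, forall_eq_or_imp,
      forall_eq, List.Pairwise.nil, and_true, false_imp_iff, implies_true]
    refine ⟨⟨?_, ?_⟩, ?_⟩
    · intro u hu v hv
      exact hT.AB u (lA u hu) v (lB v hv)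
    · intro u hu v hv
      exact qkb_sym (hA v (lP v hv) u (lA u hu))
    · intro u hu v hv
      exact qkb_sym (hB' v (lP v hv) u (lB u hu))
  have pa : a ≠ a' → IPt G (a :: (la ++ [a'])) := qkb_pth hT.A.pth
  have pb : b ≠ b' → IPt G (b :: (lb ++ [b'])) := qkb_pth hT.B.pth
  have ps : s ≠ t → IPt G (s :: (l ++ [t])) := qkb_pth hP
  have ta : a = a' → la = [] := qkb_tri hT.A.pth
  have tb : b = b' → lb = [] := qkb_tri hT.B.pth
  have ts : s = t → l = [] := qkb_tri hP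
  refine hN preKB (by simp [preCs]) (fun i => ([x, y, z, m, m', a, a', b, b', s, t] : List V).getD i x)
    [la, lb, l] ⟨?_, ?_, ?_, ?_, ?_, rfl, ?_, ?_, ?_, ?_, sp⟩
  · intro v hv; fin_cases hv <;> assumption
  · intro v hv; fin_cases hv <;> assumption
  · intro v hv; fin_cases hv <;> assumption
  · intro v hv
    fin_cases hv
    · intro h; exact c1 (h (5, 6) (by simp))
    · intro h; exact c2 (h (7, 8) (by simp))
    · intro h; exact c3 (h (5, 6) (by simp))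
    · intro h; exact c4 (h (7, 8) (by simp))
  · intro v hv; exact absurd hv (by simp [preKB])
  · intro v hv; fin_cases hv <;> assumption
  · intro v hv; fin_cases hv <;> assumption
  · intro v hv i hi
    have hi' : i < 11 := hi
    fin_cases hv <;> interval_cases i <;> assumption
  · intro v hv i hi hU k1 k2
    have hi' : i < 11 := hi
    fin_cases hv <;> interval_cases i <;>
      first
      | assumption
      | exact absurd rfl k1
      | exact absurd rfl k2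
      | exact absurd (by simp) hU

end Pool.Agent.Helper64.FL
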